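import Pool.Agent.N988.EC.Stm
import Pool.Agent.N988.EZ.Main

/-!
# Project EC (helper988), part FREE (helper370): ground states with free boundary conditions
-/

set_option autoImplicit false

open MeasureTheory Set Filter
open scoped ENNReal Topology
open Pool.Agent.N988.EA Pool.Agent.N988.EZ Pool.Agent.N988.EC

namespace Pool.Agent.N370.EC

variable {b n : ℕ}

/-- minus the energy of a configuration of all vertices -/
noncomputable def A (J : Edge b n → ℝ) (s : Pt b n → Bool) : ℝ :=
  act J (fun t => s (.inl t)) (fun x => s (.inr x))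

theorem sg_not (a : Bool) : sg (!a) = -sg a := by cases a <;> simp [sg]

theorem A_eq (J : Edge b n → ℝ) (s : Pt b n → Bool) :
    A J s = ∑ e, J e * sg (s (bd n e false)) * sg (s (bd n e true)) := by
  have h : (Sum.elim (fun t => s (.inl t)) (fun x => s (.inr x)) : Pt b n → Bool) = s := by
    funext x
    rcases x with x | x <;> rfl
  unfold A act
  rw [h]

theorem A_flip (J : Edge b n → ℝ) (s : Pt b n → Bool) : A J (fun x => !(s x)) = A J s := by
  rw [A_eq, A_eq]
  refine Finset.sum_congr rfl fun e _ => ?_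
  rw [sg_not, sg_not]
  ring

theorem bond_flip (s : Pt b n → Bool) (e : Edge b n) : bond (fun x => !(s x)) e = bond s e := by
  unfold bond
  rw [sg_not, sg_not]
  ring

theorem isGS_iff (J : Edge b n → ℝ) (σ : Pt b n → Bool) : IsGS J σ ↔ ∀ s, A J s ≤ A J σ :=
  Iff.rfl

theorem gs_flip {J : Edge b n → ℝ} {σ : Pt b n → Bool} (h : IsGS J σ) :
    IsGS J (fun x => !(σ x)) := by
  rw [isGS_iff] at h ⊢
  rw [A_flip]
  exact h

theorem A_cont (s : Pt b n → Bool) : Continuous fun J : Edge b n → ℝ => A J s := by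
  simp only [A_eq]
  fun_prop

/-- exactly two ground states -/
theorem gs_two (J : Edge b n → ℝ) (hU : UM J) (hK : K0 n J ≠ 0) :
    ∃ σ : Pt b n → Bool, IsGS J σ ∧ ∀ σ', IsGS J σ' ↔ σ' = σ ∨ σ' = fun x => !(σ x) := by
  obtain ⟨C, hC⟩ := Pool.Agent.N645.EZ.t_MX b n J
  have habs : ∀ x y : Bool, K0 n J * sg x * sg y ≤ |K0 n J| := by
    intro x y
    have h1 := le_abs_self (K0 n J)
    have h2 := neg_abs_le (K0 n J)
    cases x <;> cases y <;> simp [sg] <;> linarith
  have hle : ∀ s : Pt b n → Bool, A J s ≤ C + |K0 n J| := by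
    intro s
    obtain ⟨⟨σ, hσ⟩, h2⟩ := hC (fun t => s (.inl t))
    have h3 := h2 σ hσ
    have h4 : A J s ≤ act J (fun t => s (.inl t)) σ := hσ _
    have h5 := habs (s (.inl false)) (s (.inl true))
    rw [h3] at h4
    linarith
  -- the ends
  set τ : Bool → Bool := fun t => if t then decide (0 < K0 n J) else true with hτ
  have hτK : K0 n J * sg (τ false) * sg (τ true) = |K0 n J| := by
    rcases lt_or_gt_of_ne hK with h | h
    · have h' : ¬ 0 < K0 n J := not_lt.2 h.le
      rw [abs_of_neg h]
      simp [hτ, sg, h']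
    · rw [abs_of_pos h]
      simp [hτ, sg, h]
  obtain ⟨r, hr, hr'⟩ := hU τ
  have hAr : A J (Sum.elim τ r) = C + |K0 n J| := by
    have h1 := (hC τ).2 r hr
    rw [hτK] at h1
    exact h1
  have hmax : IsGS J (Sum.elim τ r) := by
    rw [isGS_iff]
    intro s
    rw [hAr]
    exact hle s
  have key : ∀ s : Pt b n → Bool, IsGS J s → s (.inl false) = true → s = Sum.elim τ r := by
    intro s hs h0
    have h1 : A J s = C + |K0 n J| := le_antisymm (hle s) (hAr ▸ hs (Sum.elim τ r))
    obtain ⟨⟨σ, hσ⟩, h2⟩ := hC (fun t => s (.inl t))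
    have h3 := h2 σ hσ
    have h4 : A J s ≤ act J (fun t => s (.inl t)) σ := hσ _
    have h5 := habs (s (.inl false)) (s (.inl true))
    have h6 : K0 n J * sg (s (.inl false)) * sg (s (.inl true)) = |K0 n J| := by
      rw [h3, h1] at h4
      linarith
    have h7 : s (.inl true) = decide (0 < K0 n J) := by
      rw [h0] at h6
      rcases lt_or_gt_of_ne hK with h | h
      · have h' : ¬ 0 < K0 n J := not_lt.2 h.le
        rw [abs_of_neg h] at h6
        cases hc : s (.inl true)
        · simp [h']
        · rw [hc] at h6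
          simp only [sg, if_true, mul_one] at h6
          linarith
      · rw [abs_of_pos h] at h6
        cases hc : s (.inl true)
        · rw [hc] at h6
          simp [sg] at h6
          linarith
        · simp [h]
    have h8 : (fun t => s (.inl t)) = τ := by
      funext t
      cases t
      · simp [hτ, h0]
      · simp [hτ, h7]
    have h9 : (fun x => s (.inr x)) = r := by
      apply hr'
      intro s'
      have h10 : A J (Sum.elim τ s') ≤ A J s := hs _
      have h11 : A J s = act J τ (fun x => s (.inr x)) := by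
        unfold A
        rw [h8]
      rw [← h11]
      exact h10
    funext x
    rcases x with x | x
    · exact congrFun h8 x
    · exact congrFun h9 x
  refine ⟨Sum.elim τ r, hmax, fun s => ⟨fun hs => ?_, ?_⟩⟩
  · cases h0 : s (.inl false)
    · right
      have h1 := key (fun x => !(s x)) (gs_flip hs) (by simp [h0])
      funext x
      have h2 := congrFun h1 x
      rw [← h2, Bool.not_not]
    · exact Or.inl (key s hs h0)
  · rintro (rfl | rfl)
    · exact hmax
    · exact gs_flip hmax

/-- stability -/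
theorem stab (J : Edge b n → ℝ) (σ : Pt b n → Bool) (hσ : IsGS J σ)
    (h : ∀ σ', IsGS J σ' ↔ σ' = σ ∨ σ' = fun x => !(σ x)) (e : Edge b n) : Stab (DecF e) J := by
  set U : Set (Edge b n → ℝ) :=
    {J' | ∀ s : Pt b n → Bool, ¬ (s = σ ∨ s = fun x => !(σ x)) → A J' s < A J' σ} with hU
  have hUo : IsOpen U := by
    rw [hU]
    simp only [Set.ofPred_forall]
    exact isOpen_iInter_of_finite fun s => isOpen_iInter_of_finite fun _ =>
      isOpen_lt (A_cont s) (A_cont σ)
  have hJU : J ∈ U := by
    intro s hs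
    refine lt_of_le_of_ne (hσ s) fun heq => hs ((h s).1 ?_)
    intro s'
    have h1 : A J s' ≤ A J σ := hσ s'
    rw [← heq] at h1
    exact h1
  obtain ⟨δ, hδ, hball⟩ := Metric.isOpen_iff.1 hUo J hJU
  refine ⟨bond σ e, δ, hδ, fun J' hJ' σ' hσ' => ?_⟩
  have hmem : J' ∈ U := by
    apply hball
    rw [Metric.mem_ball, dist_pi_lt_iff hδ]
    intro a
    rw [Real.dist_eq]
    exact hJ' a
  by_cases hc : σ' = σ ∨ σ' = fun x => !(σ x)
  · rcases hc with rfl | rfl
    · rfl
    · exact bond_flip σ e
  · have h1 := hmem σ' hc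
    have h2 : A J' σ ≤ A J' σ' := hσ' σ
    exact absurd h1 (not_lt.2 h2)

/-- **EC/FREE.** -/
theorem t_FREE : S_FREE := by
  intro b hb μ _ ha n
  obtain ⟨hm, h0, hu⟩ := k_AT b hb μ ha n
  have h1 : ∀ᵐ J ∂(P μ b n), K0 n J ≠ 0 := by
    have h2 := h0 0
    rw [Measure.map_apply hm (measurableSet_singleton 0)] at h2
    rw [ae_iff]
    simpa [Set.preimage] using h2
  have hP : iid μ b n = P μ b n := rfl
  rw [hP]
  filter_upwards [hu, h1] with J k1 k2
  obtain ⟨σ, hσ, hσ'⟩ := gs_two J k1 k2
  exact ⟨⟨σ, hσ, hσ'⟩, fun e => stab J σ hσ hσ' e⟩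

end Pool.Agent.N370.EC
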