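import Pool.Agent.N370.JumpDefs

/-!
# Irreducible jump-critical posets of every length

The poset `El m` is the interval order of the intervals `{i}` (`0 ≤ i ≤ m`), `[0, i]` (`0 ≤ i < m`) and
`[j, m]` (`1 ≤ j ≤ m`).
-/

set_option autoImplicit false

namespace Pool.Agent.N370.Jump

open Fintype

/-- the elements: `p i` is the interval `{i}`, `q i` is `[0, i]` and `r i` is `[i + 1, m]` -/
inductive El (m : ℕ) : Type where
  | p (i : Fin (m + 1))
  | q (i : Fin m)
  | r (i : Fin m)
deriving DecidableEq, Fintype

namespace El

variable {m : ℕ}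

/-- right end -/
def a : El m → ℕ
  | p i => i
  | q i => i
  | r _ => m

/-- left end -/
def b : El m → ℕ
  | p i => i
  | q _ => 0
  | r i => i + 1

theorem b_le_a (x : El m) : b x ≤ a x := by
  rcases x with i | i | i
  · exact le_rfl
  · exact Nat.zero_le _
  · exact i.2

theorem a_le (x : El m) : a x ≤ m := by
  rcases x with i | i | i
  · exact Nat.lt_succ_iff.1 i.2
  · exact i.2.le
  · exact le_rfl

instance : PartialOrder (El m) where
  le x y := x = y ∨ a x < b y
  le_refl x := Or.inl rfl
  le_trans x y z hxy hyz := by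
    rcases hxy with rfl | hxy
    · exact hyz
    · rcases hyz with rfl | hyz
      · exact Or.inr hxy
      · exact Or.inr (by have := b_le_a y; omega)
  le_antisymm x y hxy hyx := by
    rcases hxy with rfl | hxy
    · rfl
    · rcases hyx with rfl | hyx
      · rfl
      · have := b_le_a y
        have := b_le_a x
        omega

theorem lt_iff (x y : El m) : x < y ↔ a x < b y := by
  constructor
  · intro h
    rcases h.le with rfl | h'
    · exact absurd h (lt_irrefl _)
    · exact h'
  · intro h
    refine lt_of_le_of_ne (Or.inr h) ?_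
    rintro rfl
    have := b_le_a x
    omega

theorem card_El (m : ℕ) : card (El m) = 3 * m + 1 := by
  have e : El m ≃ Fin (m + 1) ⊕ (Fin m ⊕ Fin m) :=
    { toFun := fun x => match x with
        | p i => Sum.inl i
        | q i => Sum.inr (Sum.inl i)
        | r i => Sum.inr (Sum.inr i)
      invFun := fun x => match x with
        | Sum.inl i => p i
        | Sum.inr (Sum.inl i) => q i
        | Sum.inr (Sum.inr i) => r i
      left_inv := by rintro (i | i | i) <;> rfl
      right_inv := by rintro (i | i | i) <;> rfl }
  rw [Fintype.card_congr e]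
  simp only [Fintype.card_sum, Fintype.card_fin]
  omega

end El

open El

/-- the number of consecutive pairs -/
theorem card_consecutive {P : Type} [Fintype P] (f : P ≃ Fin (card P)) :
    Nat.card {p : P × P // (f p.2 : ℕ) = (f p.1 : ℕ) + 1} = card P - 1 := by
  have e : {p : P × P // (f p.2 : ℕ) = (f p.1 : ℕ) + 1} ≃ Fin (card P - 1) :=
    { toFun := fun p => ⟨f p.1.1, by have h1 := p.2; have h2 := (f p.1.2).2; omega⟩
      invFun := fun i => ⟨(f.symm ⟨i, by have := i.2; omega⟩,
        f.symm ⟨(i : ℕ) + 1, by have := i.2; omega⟩), by simp⟩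
      left_inv := by
        rintro ⟨⟨x, y⟩, h⟩
        simp only [Subtype.mk.injEq, Prod.mk.injEq]
        constructor
        · rw [Equiv.symm_apply_eq]
        · rw [Equiv.symm_apply_eq]
          exact Fin.ext h.symm
      right_inv := by
        intro i
        simp }
  rw [Nat.card_congr e, Nat.card_eq_fintype_card, Fintype.card_fin]

theorem jumps_add {P : Type} [Fintype P] [PartialOrder P] (f : P ≃ Fin (card P)) :
    jumps f + Nat.card {p : P × P // (f p.2 : ℕ) = (f p.1 : ℕ) + 1 ∧ p.1 ⋖ p.2} = card P - 1 := by
  classical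
  rw [← card_consecutive f]
  unfold jumps
  rw [Nat.card_eq_fintype_card, Nat.card_eq_fintype_card, Nat.card_eq_fintype_card,
    Fintype.card_subtype, Fintype.card_subtype, Fintype.card_subtype]
  have h := Finset.card_filter_add_card_filter_not
    (s := Finset.univ.filter (fun p : P × P => (f p.2 : ℕ) = (f p.1 : ℕ) + 1))
    (fun p : P × P => p.1 ⋖ p.2)
  rw [Finset.filter_filter, Finset.filter_filter] at h
  omega

theorem few_jumps {P : Type} [Fintype P] [PartialOrder P] {m N : ℕ} (hcard : card P = N)
    (k : P → ℕ) (hk : Function.Injective k) (hmono : ∀ x y : P, x < y → k x < k y)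
    (u v : Fin m → P) (hu : Function.Injective u) (h : ∀ j, k (v j) = k (u j) + 1)
    (hlt : ∀ j, u j < v j) : jumpNumber P ≤ N - 1 - m := by
  classical
  obtain ⟨f, hf, hfk⟩ := exists_linExt k hk hmono
  refine (jumpNumber_le hf).trans ?_
  have h1 := jumps_add f
  have h2 : m ≤ Nat.card {p : P × P // (f p.2 : ℕ) = (f p.1 : ℕ) + 1 ∧ p.1 ⋖ p.2} := by
    have hcons : ∀ j, (f (v j) : ℕ) = (f (u j) : ℕ) + 1 := by
      intro j
      have h3 : f (u j) < f (v j) := hf _ _ (hlt j)
      rw [Fin.lt_def] at h3
      by_contra hne
      have h4 : (f (u j) : ℕ) + 1 < f (v j) := by omega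
      have h5 : (f (u j) : ℕ) + 1 < card P := h4.trans (f (v j)).2
      set z := f.symm ⟨(f (u j) : ℕ) + 1, h5⟩ with hz
      have hfz : (f z : ℕ) = (f (u j) : ℕ) + 1 := by rw [hz]; simp
      have h6 : k (u j) < k z := (hfk _ _).1 (by rw [Fin.lt_def]; omega)
      have h7 : k z < k (v j) := (hfk _ _).1 (by rw [Fin.lt_def]; omega)
      have := h j
      omega
    have := Nat.card_le_card_of_injective
      (fun j : Fin m => (⟨(u j, v j), hcons j, covBy_of_lt hf (hcons j) (hlt j)⟩ :
        {p : P × P // (f p.2 : ℕ) = (f p.1 : ℕ) + 1 ∧ p.1 ⋖ p.2})) (by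
        intro i j hij
        simp only [Subtype.mk.injEq, Prod.mk.injEq] at hij
        exact hu hij.1)
    simpa using this
  omega

theorem lower_El (m : ℕ) : 2 * m ≤ jumpNumber (El m) := by
  classical
  apply le_jumpNumber
  intro f hf
  have h1 := jumps_add f
  have hcE := card_El m
  have key : ∀ x y : El m, (f y : ℕ) = (f x : ℕ) + 1 → x ⋖ y → b y = a x + 1 ∧ a x < m := by
    intro x y hxy hc
    have h2 := (El.lt_iff x y).1 hc.1
    have h3 : a x + 1 ≤ m := by
      have := b_le_a y
      have := a_le y
      omega
    refine ⟨?_, h3⟩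
    by_contra hne
    have h4 : a x + 1 < b y := by omega
    refine hc.2 (c := p ⟨a x + 1, by omega⟩) ?_ ?_
    · rw [El.lt_iff]
      exact Nat.lt_succ_self _
    · rw [El.lt_iff]
      exact h4
  have h2 : Nat.card {p : El m × El m // (f p.2 : ℕ) = (f p.1 : ℕ) + 1 ∧ p.1 ⋖ p.2} ≤ m := by
    have := Nat.card_le_card_of_injective
      (fun s : {p : El m × El m // (f p.2 : ℕ) = (f p.1 : ℕ) + 1 ∧ p.1 ⋖ p.2} =>
        (⟨a s.1.1, (key _ _ s.2.1 s.2.2).2⟩ : Fin m)) (by
        rintro ⟨⟨x, y⟩, hxy, hc⟩ ⟨⟨x', y'⟩, hxy', hc'⟩ hs
        simp only [Fin.mk.injEq] at hs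
        simp only at hxy hxy' hc hc'
        have k1 := (key _ _ hxy hc).1
        have k2 := (key _ _ hxy' hc').1
        have l1 : x < y' := by rw [El.lt_iff]; omega
        have l2 : x' < y := by rw [El.lt_iff]; omega
        have l3 := hf _ _ l1
        have l4 := hf _ _ l2
        rw [Fin.lt_def] at l3 l4
        have l5 : x = x' := f.injective (Fin.ext (by omega))
        have l6 : y = y' := f.injective (Fin.ext (by omega))
        subst l5
        subst l6
        rfl)
    simpa using this
  omega

theorem key_lt_succ {m : ℕ} (i : Fin m) : (i : ℕ) < m + 1 := by omega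

theorem upper_El_all (m : ℕ) : jumpNumber (El m) ≤ 2 * m := by
  classical
  have h := few_jumps (P := El m) (m := m) (N := 3 * m + 1) (card_El m)
    (fun x => match x with
      | p i => m + i
      | q i => i
      | r i => 2 * m + 1 + i) ?_ ?_
    (fun j => p ⟨j, by omega⟩) (fun j => p ⟨j + 1, by omega⟩) ?_ ?_ ?_
  · omega
  · intro x y hxy
    rcases x with i | i | i <;> rcases y with j | j | j <;> simp only at hxy
    · congr 1; ext; omega
    · omega
    · omega
    · omega
    · congr 1; ext; omega
    · omega
    · omega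
    · omega
    · congr 1; ext; omega
  · intro x y hxy
    rw [El.lt_iff] at hxy
    rcases x with i | i | i <;> rcases y with j | j | j <;> simp only [a, b] at hxy ⊢ <;> omega
  · intro i j hij
    simp only [El.p.injEq, Fin.mk.injEq] at hij
    exact Fin.ext hij
  · intro j
    simp only
    omega
  · intro j
    rw [El.lt_iff]
    simp [a, b]

theorem upper_El (m : ℕ) (x : El m) (inst : Fintype {y : El m // y ≠ x}) :
    jumpNumber {y : El m // y ≠ x} ≤ 2 * m - 1 := by
  classical
  have hcard : card {y : El m // y ≠ x} = 3 * m := by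
    have h1 := Fintype.card_subtype_compl (fun y : El m => y = x)
    simp only [Fintype.card_subtype_eq, card_El] at h1
    rw [Fintype.card_congr (Equiv.refl {y : El m // y ≠ x})] at h1
    have h2 : card {y : El m // y ≠ x} = 3 * m + 1 - 1 := by
      rw [← h1]
    omega
  rcases x with i | i | i
  · -- `p i` is removed
    have h := few_jumps (P := {y : El m // y ≠ p i}) (m := m) (N := 3 * m) hcard
      (fun y => match y.1 with
        | p j => if (j : ℕ) < i then m + j else m + j + 1
        | q j => if (j : ℕ) = i then m + j + 1 else j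
        | r j => if (j : ℕ) + 1 = i then m + j + 1 else 2 * m + 2 + j) ?_ ?_
      (fun j => if h : (j : ℕ) = i then ⟨q j, by simp⟩ else
        ⟨p ⟨j, by omega⟩, by
          intro h'
          simp only [El.p.injEq] at h'
          rw [← h'] at h
          exact h rfl⟩)
      (fun j => if h : (j : ℕ) + 1 = i then ⟨r j, by simp⟩ else
        ⟨p ⟨j + 1, by omega⟩, by
          intro h'
          simp only [El.p.injEq] at h'
          rw [← h'] at h
          exact h rfl⟩) ?_ ?_ ?_
    · omega
    · rintro ⟨x, hx⟩ ⟨y, hy⟩ hxy
      have hxi : ∀ j, x = p j → (j : ℕ) ≠ i := fun j e h => hx (by rw [e, Fin.ext h])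
      have hyi : ∀ j, y = p j → (j : ℕ) ≠ i := fun j e h => hy (by rw [e, Fin.ext h])
      have hi := i.2
      rcases x with j | j | j <;> rcases y with l | l | l <;> simp only at hxy
      · have := hxi j rfl
        have := hyi l rfl
        have hjl : j = l := by ext; split_ifs at hxy <;> omega
        subst hjl; rfl
      · have := hxi j rfl
        have hl := l.2
        have hj := j.2
        split_ifs at hxy <;> omega
      · have := hxi j rfl
        have hl := l.2
        have hj := j.2
        split_ifs at hxy <;> omega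
      · have := hyi l rfl
        have hl := l.2
        have hj := j.2
        split_ifs at hxy <;> omega
      · have hl := l.2
        have hj := j.2
        have hjl : j = l := by ext; split_ifs at hxy <;> omega
        subst hjl; rfl
      · have hl := l.2
        have hj := j.2
        split_ifs at hxy <;> omega
      · have := hyi l rfl
        have hl := l.2
        have hj := j.2
        split_ifs at hxy <;> omega
      · have hl := l.2
        have hj := j.2
        split_ifs at hxy <;> omega
      · have hl := l.2
        have hj := j.2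
        have hjl : j = l := by ext; split_ifs at hxy <;> omega
        subst hjl; rfl
    · rintro ⟨x, hx⟩ ⟨y, hy⟩ hxy
      have hxy' : x < y := hxy
      rw [El.lt_iff] at hxy'
      have hxi : ∀ j, x = p j → (j : ℕ) ≠ i := fun j e h => hx (by rw [e, Fin.ext h])
      have hyi : ∀ j, y = p j → (j : ℕ) ≠ i := fun j e h => hy (by rw [e, Fin.ext h])
      have hi := i.2
      rcases x with j | j | j <;> rcases y with l | l | l <;> simp only [a, b] at hxy' ⊢ <;>
        have hl := l.2 <;> have hj := j.2
      · have := hxi j rfl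
        have := hyi l rfl
        split_ifs <;> omega
      · split_ifs <;> omega
      · have := hxi j rfl
        split_ifs <;> omega
      · have := hyi l rfl
        split_ifs <;> omega
      · split_ifs <;> omega
      · split_ifs <;> omega
      · split_ifs <;> omega
      · split_ifs <;> omega
      · split_ifs <;> omega
    · intro j l hjl
      simp only at hjl
      split_ifs at hjl <;> simp only [Subtype.mk.injEq, El.p.injEq, El.q.injEq, Fin.mk.injEq,
        reduceCtorEq] at hjl
      · exact hjl
      · exact Fin.ext hjl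
    · intro j
      have hj := j.2
      have hi := i.2
      by_cases h1 : (j : ℕ) = i
      · by_cases h2 : (j : ℕ) + 1 = i
        · omega
        · rw [dif_pos h1, dif_neg h2]
          simp only
          split_ifs <;> omega
      · by_cases h2 : (j : ℕ) + 1 = i
        · rw [dif_neg h1, dif_pos h2]
          simp only
          split_ifs <;> omega
        · rw [dif_neg h1, dif_neg h2]
          simp only
          split_ifs <;> omega
    · intro j
      by_cases h1 : (j : ℕ) = i
      · by_cases h2 : (j : ℕ) + 1 = i
        · omega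
        · rw [dif_pos h1, dif_neg h2, Subtype.mk_lt_mk, El.lt_iff]
          simp only [a, b]
          omega
      · by_cases h2 : (j : ℕ) + 1 = i
        · rw [dif_neg h1, dif_pos h2, Subtype.mk_lt_mk, El.lt_iff]
          simp only [a, b]
          omega
        · rw [dif_neg h1, dif_neg h2, Subtype.mk_lt_mk, El.lt_iff]
          simp only [a, b]
          omega
  · have h := few_jumps (P := {y : El m // y ≠ q i}) (m := m) (N := 3 * m) hcard
      (fun y => match y.1 with
        | p i => m + i
        | q i => i
        | r i => 2 * m + 1 + i) ?_ ?_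
      (fun j => ⟨p ⟨j, by omega⟩, by simp⟩) (fun j => ⟨p ⟨j + 1, by omega⟩, by simp⟩) ?_ ?_ ?_
    · omega
    · rintro ⟨x, hx⟩ ⟨y, hy⟩ hxy
      rw [Subtype.mk.injEq]
      rcases x with i | i | i <;> rcases y with j | j | j <;> simp only at hxy
      · congr 1; ext; omega
      · omega
      · omega
      · omega
      · congr 1; ext; omega
      · omega
      · omega
      · omega
      · congr 1; ext; omega
    · rintro ⟨x, hx⟩ ⟨y, hy⟩ hxy
      have hxy' : x < y := hxy
      rw [El.lt_iff] at hxy'
      rcases x with i | i | i <;> rcases y with j | j | j <;> simp only [a, b] at hxy' ⊢ <;> omega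
    · intro i j hij
      simp only [Subtype.mk.injEq, El.p.injEq, Fin.mk.injEq] at hij
      exact Fin.ext hij
    · intro j
      simp only
      omega
    · intro j
      rw [Subtype.mk_lt_mk, El.lt_iff]
      simp [a, b]
  · have h := few_jumps (P := {y : El m // y ≠ r i}) (m := m) (N := 3 * m) hcard
      (fun y => match y.1 with
        | p i => m + i
        | q i => i
        | r i => 2 * m + 1 + i) ?_ ?_
      (fun j => ⟨p ⟨j, by omega⟩, by simp⟩) (fun j => ⟨p ⟨j + 1, by omega⟩, by simp⟩) ?_ ?_ ?_
    · omega
    · rintro ⟨x, hx⟩ ⟨y, hy⟩ hxy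
      rw [Subtype.mk.injEq]
      rcases x with i | i | i <;> rcases y with j | j | j <;> simp only at hxy
      · congr 1; ext; omega
      · omega
      · omega
      · omega
      · congr 1; ext; omega
      · omega
      · omega
      · omega
      · congr 1; ext; omega
    · rintro ⟨x, hx⟩ ⟨y, hy⟩ hxy
      have hxy' : x < y := hxy
      rw [El.lt_iff] at hxy'
      rcases x with i | i | i <;> rcases y with j | j | j <;> simp only [a, b] at hxy' ⊢ <;> omega
    · intro i j hij
      simp only [Subtype.mk.injEq, El.p.injEq, Fin.mk.injEq] at hij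
      exact Fin.ext hij
    · intro j
      simp only
      omega
    · intro j
      rw [Subtype.mk_lt_mk, El.lt_iff]
      simp [a, b]

theorem critical_El {m : ℕ} (hm : 1 ≤ m) : JumpCritical (El m) := by
  refine ⟨le_trans (by omega) (lower_El m), fun x inst => ?_⟩
  have h1 := upper_El m x inst
  have h2 := lower_El m
  omega

theorem hasLength_El (m : ℕ) : HasLength (El m) m := by
  classical
  constructor
  · refine ⟨Finset.univ.image (fun i : Fin (m + 1) => (p i : El m)), ?_, ?_⟩
    · intro a ha b hb _
      simp only [Finset.coe_image, Finset.coe_univ, Set.image_univ, Set.mem_range] at ha hb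
      obtain ⟨i, rfl⟩ := ha
      obtain ⟨j, rfl⟩ := hb
      rcases lt_trichotomy i j with h | h | h
      · exact Or.inl (Or.inr h)
      · subst h
        exact Or.inl le_rfl
      · exact Or.inr (Or.inr h)
    · rw [Finset.card_image_of_injective]
      · simp
      · intro i j h
        simpa using h
  · intro c hc
    have hinj : Set.InjOn (fun x : El m => (⟨a x, by have := a_le x; omega⟩ : Fin (m + 1)))
        (c : Set (El m)) := by
      intro x hx y hy hxy
      simp only [Fin.mk.injEq] at hxy
      by_contra hne
      have h1 := b_le_a x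
      have h2 := b_le_a y
      rcases hc hx hy hne with h | h
      · rcases h with h | h
        · exact hne h
        · omega
      · rcases h with h | h
        · exact hne h.symm
        · omega
    have := Finset.card_image_of_injOn hinj
    rw [← this]
    refine (Finset.card_le_univ _).trans ?_
    simp

/-- the comparability graph is connected -/
theorem conn_comp {m : ℕ} (A : Set (El m)) (h1 : A.Nonempty) (h2 : Aᶜ.Nonempty) :
    ∃ x ∈ A, ∃ y ∉ A, x < y ∨ y < x := by
  have main : ∀ A : Set (El m), p 0 ∈ A → Aᶜ.Nonempty → ∃ x ∈ A, ∃ y ∉ A, x < y ∨ y < x := by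
    intro A h0 ⟨z, hz⟩
    have hp : ∀ j : Fin (m + 1), (p j : El m) ∉ A → ∃ x ∈ A, ∃ y ∉ A, x < y ∨ y < x := by
      intro j hj
      refine ⟨_, h0, _, hj, Or.inl ?_⟩
      rw [El.lt_iff]
      simp only [a, b]
      have : j ≠ 0 := by rintro rfl; exact hj h0
      have := Fin.pos_iff_ne_zero.2 this
      exact this
    rcases z with j | j | j
    · exact hp j hz
    · by_cases h : (p ⟨j + 1, by omega⟩ : El m) ∈ A
      · refine ⟨_, h, _, hz, Or.inr ?_⟩
        rw [El.lt_iff]
        simp [a, b]
      · exact hp _ h
    · refine ⟨_, h0, _, hz, Or.inl ?_⟩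
      rw [El.lt_iff]
      simp [a, b]
  by_cases h0 : p 0 ∈ A
  · exact main A h0 h2
  · obtain ⟨x, hx, y, hy, hxy⟩ := main Aᶜ h0 (by rwa [compl_compl])
    exact ⟨y, by simpa using hy, x, hx, hxy.symm⟩

/-- the incomparability graph is connected -/
theorem conn_incomp {m : ℕ} (hm : 2 ≤ m) (A : Set (El m)) (h1 : A.Nonempty) (h2 : Aᶜ.Nonempty) :
    ∃ x ∈ A, ∃ y ∉ A, ¬ x ≤ y ∧ ¬ y ≤ x := by
  have inc : ∀ x y : El m, x ≠ y → b y ≤ a x → b x ≤ a y → ¬ x ≤ y ∧ ¬ y ≤ x := by
    intro x y hne h3 h4
    constructor
    · rintro (h | h)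
      · exact hne h
      · omega
    · rintro (h | h)
      · exact hne h.symm
      · omega
  set r0 : El m := r ⟨0, by omega⟩ with hr0
  set q1 : El m := q ⟨m - 1, by omega⟩ with hq1
  set p1 : El m := p ⟨1, by omega⟩ with hp1
  have main : ∀ A : Set (El m), r0 ∈ A → Aᶜ.Nonempty → ∃ x ∈ A, ∃ y ∉ A, ¬ x ≤ y ∧ ¬ y ≤ x := by
    intro A h0 ⟨z, hz⟩
    by_cases hp : p1 ∈ A
    · by_cases hq : q1 ∈ A
      · rcases z with j | j | j
        · by_cases hj : (j : ℕ) = 0
          · refine ⟨_, hq, _, hz, inc _ _ (by simp [hq1]) ?_ ?_⟩ <;> simp [a, b, hq1] <;> omega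
          · refine ⟨_, h0, _, hz, inc _ _ (by simp [hr0]) ?_ ?_⟩ <;> simp [a, b, hr0] <;> omega
        · refine ⟨_, hq, _, hz, inc _ _ ?_ ?_ ?_⟩
          · rintro h
            exact hz (h ▸ hq)
          · simp [a, b, hq1]
          · simp [a, b, hq1]
        · refine ⟨_, h0, _, hz, inc _ _ ?_ ?_ ?_⟩
          · rintro h
            exact hz (h ▸ h0)
          · simp only [a, b, hr0]; omega
          · simp only [a, b, hr0]; omega
      · refine ⟨_, hp, _, hq, inc _ _ (by simp [hp1, hq1]) ?_ ?_⟩ <;> simp [a, b, hp1, hq1] <;> omega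
    · refine ⟨_, h0, _, hp, inc _ _ (by simp [hr0, hp1]) ?_ ?_⟩ <;> simp [a, b, hr0, hp1] <;> omega
  by_cases h0 : r0 ∈ A
  · exact main A h0 h2
  · obtain ⟨x, hx, y, hy, hxy⟩ := main Aᶜ h0 (by rwa [compl_compl])
    exact ⟨y, by simpa using hy, x, hx, hxy.symm⟩

end Pool.Agent.N370.Jump
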