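import Mathlib

/-!
# Jump numbers of finite posets: definitions
-/

set_option autoImplicit false

namespace Pool.Agent.N370.Jump

open Fintype

/-- `f` is a linear extension of the finite poset `P`: it lists `P` in an order that extends the
order of `P`; the place of `x` is `f x`. -/
def IsLinExt {P : Type} [Fintype P] [PartialOrder P] (f : P ≃ Fin (card P)) : Prop :=
  ∀ x y : P, x < y → f x < f y

/-- The number of jumps of the linear extension `f`: the pairs `(x, y)` such that `y` comes
immediately after `x` and `y` does not cover `x` in `P`. -/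
noncomputable def jumps {P : Type} [Fintype P] [PartialOrder P] (f : P ≃ Fin (card P)) : ℕ :=
  Nat.card {p : P × P // (f p.2 : ℕ) = (f p.1 : ℕ) + 1 ∧ ¬ p.1 ⋖ p.2}

/-- The jump number `σ(P)`. -/
noncomputable def jumpNumber (P : Type) [Fintype P] [PartialOrder P] : ℕ :=
  sInf {k : ℕ | ∃ f : P ≃ Fin (card P), IsLinExt f ∧ jumps f = k}

/-- `P` is jump-critical: `σ(P) ≥ 1` and `σ(P - {x}) < σ(P)` for every `x`. -/
def JumpCritical (P : Type) [Fintype P] [PartialOrder P] : Prop :=
  1 ≤ jumpNumber P ∧ ∀ (x : P) (_ : Fintype {y : P // y ≠ x}),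
    jumpNumber {y : P // y ≠ x} < jumpNumber P

/-- The length of `P` is `ℓ`: the largest size of a chain is `ℓ + 1`. -/
def HasLength (P : Type) [PartialOrder P] (ℓ : ℕ) : Prop :=
  (∃ c : Finset P, IsChain (· ≤ ·) (c : Set P) ∧ c.card = ℓ + 1) ∧
    ∀ c : Finset P, IsChain (· ≤ ·) (c : Set P) → c.card ≤ ℓ + 1

end Pool.Agent.N370.Jump
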