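import Pool.Agent.N370.JumpCore

/-!
# Jump numbers: basic facts
-/

set_option autoImplicit false

namespace Pool.Agent.N370.Jump

open Fintype

/-- consecutive comparable elements of a linear extension are in a cover relation -/
theorem covBy_of_lt {P : Type} [Fintype P] [PartialOrder P] {f : P ≃ Fin (card P)}
    (hf : IsLinExt f) {x y : P} (h : (f y : ℕ) = (f x : ℕ) + 1) (hxy : x < y) : x ⋖ y := by
  refine ⟨hxy, ?_⟩
  intro z h1 h2
  have h3 := hf _ _ h1
  have h4 := hf _ _ h2
  rw [Fin.lt_def] at h3 h4
  omega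

/-- a linear extension obtained from an injective key -/
theorem exists_linExt {P : Type} [Fintype P] [PartialOrder P] (k : P → ℕ)
    (hk : Function.Injective k) (hmono : ∀ x y : P, x < y → k x < k y) :
    ∃ f : P ≃ Fin (card P), IsLinExt f ∧ ∀ x y : P, f x < f y ↔ k x < k y := by
  classical
  let _ : LinearOrder (ULift.{0} (PLift P)) := LinearOrder.lift' (fun a => k a.down.down) (by
    intro a b h
    have := hk h
    rcases a with ⟨⟨a⟩⟩
    rcases b with ⟨⟨b⟩⟩
    simp only at this
    rw [this])
  let e : P ≃ ULift.{0} (PLift P) := (Equiv.plift.symm).trans Equiv.ulift.symm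
  have : Fintype (ULift.{0} (PLift P)) := Fintype.ofEquiv P e
  have hcard : card (ULift.{0} (PLift P)) = card P := (Fintype.card_congr e).symm
  let g := monoEquivOfFin (ULift.{0} (PLift P)) hcard
  refine ⟨e.trans g.symm.toEquiv, ?_, ?_⟩
  · intro x y hxy
    have h1 : (e x) < (e y) := hmono x y hxy
    exact (g.symm.lt_iff_lt).2 h1
  · intro x y
    have h1 : (e x) < (e y) ↔ k x < k y := Iff.rfl
    rw [← h1]
    exact g.symm.lt_iff_lt

theorem exists_linExt' (P : Type) [Fintype P] [PartialOrder P] :
    ∃ f : P ≃ Fin (card P), IsLinExt f := by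
  classical
  -- a linear extension of the order
  have e : Fintype (LinearExtension P) := inferInstanceAs (Fintype P)
  have hcard : @card (LinearExtension P) e = card P := by
    apply Fintype.card_congr
    exact Equiv.refl P
  let g := monoEquivOfFin (LinearExtension P) hcard
  refine ⟨(Equiv.refl P : P ≃ LinearExtension P).trans g.symm.toEquiv, ?_⟩
  intro x y hxy
  have h1 : (toLinearExtension x) ≤ (toLinearExtension y) := toLinearExtension.monotone hxy.le
  have h2 : (toLinearExtension x) ≠ (toLinearExtension y) := fun h => hxy.ne h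
  exact (g.symm.lt_iff_lt).2 (lt_of_le_of_ne h1 h2)

theorem jumpNumber_le {P : Type} [Fintype P] [PartialOrder P] {f : P ≃ Fin (card P)}
    (hf : IsLinExt f) : jumpNumber P ≤ jumps f := Nat.sInf_le ⟨f, hf, rfl⟩

theorem le_jumpNumber {P : Type} [Fintype P] [PartialOrder P] {m : ℕ}
    (h : ∀ f : P ≃ Fin (card P), IsLinExt f → m ≤ jumps f) : m ≤ jumpNumber P := by
  obtain ⟨f, hf⟩ := exists_linExt' P
  have hne : {k : ℕ | ∃ f : P ≃ Fin (card P), IsLinExt f ∧ jumps f = k}.Nonempty :=
    ⟨_, f, hf, rfl⟩
  obtain ⟨g, hg, hk⟩ := Nat.sInf_mem hne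
  unfold jumpNumber
  rw [← hk]
  exact h g hg

end Pool.Agent.N370.Jump
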