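import Pool.Agent.N894.WF.Defs

/-!
# Project WF, leaf A: rank-sofic groups are weakly sofic (helper370)
-/

set_option autoImplicit false

namespace Pool.Agent.N370.WF

open N894.WF

section

variable {G Q : Type} [Group G] [Group Q]

/-- The element is in a subgroup generated by at most `m` conjugates of errors. -/
def P (φ : G → Q) (F : Finset G) (m : ℕ) (q : Q) : Prop :=
  ∃ T : Finset Q, T.card ≤ m ∧ IsErrSet φ F T ∧ q ∈ Subgroup.closure (T : Set Q)

lemma P_one (φ : G → Q) (F : Finset G) : P φ F 0 1 :=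
  ⟨∅, by simp, by intro t ht; simp at ht, Subgroup.one_mem _⟩

lemma P_zero {φ : G → Q} {F : Finset G} {q : Q} (h : P φ F 0 q) : q = 1 := by
  obtain ⟨T, h1, -, h3⟩ := h
  have : T = ∅ := Finset.card_eq_zero.1 (Nat.le_zero.1 h1)
  subst this
  simpa using h3

lemma P_inv {φ : G → Q} {F : Finset G} {m : ℕ} {q : Q} (h : P φ F m q) : P φ F m q⁻¹ := by
  obtain ⟨T, h1, h2, h3⟩ := h
  exact ⟨T, h1, h2, Subgroup.inv_mem _ h3⟩

lemma P_conj {φ : G → Q} {F : Finset G} {m : ℕ} {q : Q} (x : Q) (h : P φ F m q) :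
    P φ F m (x * q * x⁻¹) := by
  classical
  obtain ⟨T, h1, h2, h3⟩ := h
  refine ⟨T.image (fun t => x * t * x⁻¹), Finset.card_image_le.trans h1, ?_, ?_⟩
  · intro t ht
    obtain ⟨s, hs, rfl⟩ := Finset.mem_image.1 ht
    obtain ⟨y, g, hg, k, hk, rfl⟩ := h2 s hs
    exact ⟨x * y, g, hg, k, hk, by group⟩
  · have h4 : (MulAut.conj x).toMonoidHom q ∈
        (Subgroup.closure (T : Set Q)).map (MulAut.conj x).toMonoidHom :=
      Subgroup.mem_map_of_mem _ h3
    rw [MonoidHom.map_closure] at h4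
    have h5 : ((T.image (fun t => x * t * x⁻¹) : Finset Q) : Set Q) =
        (MulAut.conj x).toMonoidHom '' (T : Set Q) := by
      rw [Finset.coe_image]
      rfl
    rw [h5]
    exact h4

lemma P_mul {φ : G → Q} {F : Finset G} {m m' : ℕ} {q q' : Q} (h : P φ F m q) (h' : P φ F m' q') :
    P φ F (m + m') (q * q') := by
  classical
  obtain ⟨T, h1, h2, h3⟩ := h
  obtain ⟨T', h1', h2', h3'⟩ := h'
  refine ⟨T ∪ T', (Finset.card_union_le _ _).trans (by omega), ?_, ?_⟩
  · intro t ht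
    rcases Finset.mem_union.1 ht with h | h
    · exact h2 t h
    · exact h2' t h
  · refine Subgroup.mul_mem _ ?_ ?_
    · exact Subgroup.closure_mono (by rw [Finset.coe_union]; exact Set.subset_union_left) h3
    · exact Subgroup.closure_mono (by rw [Finset.coe_union]; exact Set.subset_union_right) h3'

/-- The truncated rank. -/
noncomputable def rk (φ : G → Q) (F : Finset G) (K : ℕ) (q : Q) : ℕ :=
  sInf {m | P φ F m q ∨ K ≤ m}

lemma rk_mem (φ : G → Q) (F : Finset G) (K : ℕ) (q : Q) :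
    P φ F (rk φ F K q) q ∨ K ≤ rk φ F K q :=
  Nat.sInf_mem (s := {m | P φ F m q ∨ K ≤ m}) ⟨K, Or.inr le_rfl⟩

lemma rk_le {φ : G → Q} {F : Finset G} {K m : ℕ} {q : Q} (h : P φ F m q ∨ K ≤ m) :
    rk φ F K q ≤ m := Nat.sInf_le h

lemma rk_congr {φ : G → Q} {F : Finset G} {K : ℕ} {q q' : Q}
    (h : ∀ m, P φ F m q → P φ F m q') : rk φ F K q' ≤ rk φ F K q := by
  rcases rk_mem φ F K q with h1 | h1
  · exact rk_le (Or.inl (h _ h1))
  · exact rk_le (Or.inr h1)

lemma rk_inv (φ : G → Q) (F : Finset G) (K : ℕ) (q : Q) : rk φ F K q⁻¹ = rk φ F K q := by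
  refine le_antisymm (rk_congr fun m h => P_inv h) (rk_congr fun m h => ?_)
  have := P_inv h
  rwa [inv_inv] at this

lemma rk_conj (φ : G → Q) (F : Finset G) (K : ℕ) (x q : Q) :
    rk φ F K (x * q * x⁻¹) = rk φ F K q := by
  refine le_antisymm (rk_congr fun m h => P_conj x h) (rk_congr fun m h => ?_)
  have := P_conj x⁻¹ h
  have e : x⁻¹ * (x * q * x⁻¹) * x⁻¹⁻¹ = q := by group
  rwa [e] at this

lemma rk_mul (φ : G → Q) (F : Finset G) (K : ℕ) (q q' : Q) :
    rk φ F K (q * q') ≤ rk φ F K q + rk φ F K q' := by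
  rcases rk_mem φ F K q with h1 | h1
  · rcases rk_mem φ F K q' with h2 | h2
    · exact rk_le (Or.inl (P_mul h1 h2))
    · exact rk_le (Or.inr (by omega))
  · exact rk_le (Or.inr (by omega))

lemma rk_eq_zero {φ : G → Q} {F : Finset G} {K : ℕ} (hK : 1 ≤ K) {q : Q} :
    rk φ F K q = 0 ↔ q = 1 := by
  constructor
  · intro h
    rcases rk_mem φ F K q with h1 | h1
    · rw [h] at h1
      exact P_zero h1
    · omega
  · rintro rfl
    exact Nat.le_zero.1 (rk_le (Or.inl (P_one φ F)))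

end

theorem t_A : N894.WF.LeafA := by
  intro G _ hR F ε hε
  obtain ⟨K, hK⟩ := exists_nat_gt (1 / ε)
  have hKpos : (0 : ℝ) < K := lt_trans (by positivity) hK
  have hK1 : 1 ≤ K := by exact_mod_cast (Nat.cast_pos.1 hKpos)
  obtain ⟨Q, _, _, φ, hφ⟩ := hR F K
  refine ⟨Q, inferInstance, inferInstance, fun a b => (rk φ F K (a * b⁻¹) : ℝ) / K, φ,
    ?_, ?_, ?_, ?_, ?_, ?_, ?_⟩
  · intro a b
    rw [div_eq_zero_iff, or_iff_left hKpos.ne', Nat.cast_eq_zero, rk_eq_zero hK1]
    exact mul_inv_eq_one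
  · intro a b
    simp only
    rw [← rk_inv φ F K (a * b⁻¹)]
    congr 3
    group
  · intro a b c
    simp only
    rw [← add_div]
    have h := rk_mul φ F K (a * b⁻¹) (b * c⁻¹)
    have e : a * b⁻¹ * (b * c⁻¹) = a * c⁻¹ := by group
    rw [e] at h
    gcongr
    exact_mod_cast h
  · intro x a b
    simp only
    have e : x * a * (x * b)⁻¹ = x * (a * b⁻¹) * x⁻¹ := by group
    rw [e, rk_conj]
  · intro x a b
    simp only
    have e : a * x * (b * x)⁻¹ = a * b⁻¹ := by group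
    rw [e]
  · intro g hg h hh _
    simp only
    have e : φ (g * h) * (φ g * φ h)⁻¹ = (φ g * φ h * (φ (g * h))⁻¹)⁻¹ := by group
    rw [e, rk_inv]
    have h1 : rk φ F K (φ g * φ h * (φ (g * h))⁻¹) ≤ 1 := by
      refine rk_le (Or.inl ⟨{φ g * φ h * (φ (g * h))⁻¹}, by simp, ?_, ?_⟩)
      · intro t ht
        rw [Finset.mem_singleton] at ht
        subst ht
        exact ⟨1, g, hg, h, hh, by group⟩
      · exact Subgroup.subset_closure (by simp)
    have h2 : (rk φ F K (φ g * φ h * (φ (g * h))⁻¹) : ℝ) ≤ 1 := by exact_mod_cast h1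
    rw [div_le_iff₀ hKpos]
    have h3 : 1 ≤ ε * K := by
      rw [div_lt_iff₀ hε] at hK
      linarith
    linarith
  · intro g hg hg1
    simp only
    rw [inv_one, mul_one, le_div_iff₀ hKpos, one_mul]
    have h1 : K ≤ rk φ F K (φ g) := by
      rcases rk_mem φ F K (φ g) with h1 | h1
      · by_contra hc
        obtain ⟨T, hT1, hT2, hT3⟩ := h1
        exact hφ T (hT1.trans (by omega)) hT2 g hg hg1 hT3
      · exact h1
    exact_mod_cast h1

end Pool.Agent.N370.WF
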